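import Pool.Agent.W2helper20.KS.Stm

/-!
# Piece INT of project KS
-/

set_option autoImplicit false

namespace Pool.Agent.W2helper52.KS

open Set Metric MeasureTheory Filter Topology
open scoped ContDiff InnerProductSpace ENNReal
open Pool.Agent.Q176.BR Pool.Agent.W2helper20.BC Pool.Agent.W2helper25.KB Pool.Agent.W2helper20.KS

variable {n : ℕ} {g h : Fld n} {J : E n → E n →L[ℝ] E n}

theorem TT_eq (hg : IsMetric g) (hk : AK g J) (hk' : HK h J) :
    TT g h = -∫ x in ball (0 : E n) 1, ∑ i, ∑ j, Pf g J i j x * Bf g h J i j x := by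
  rw [← integral_neg, TT]
  refine setIntegral_congr_fun measurableSet_ball fun x hx => ?_
  have hxM : x ∈ M n := ball_subset_closedBall hx
  have e1 : Vm g J x * (Wm h J x - Wm g J x) = (gram (g x))⁻¹ * gram (h x) - 1 := by
    rw [Matrix.mul_sub, VW hg hk hxM]
    congr 1
    unfold Vm Wm
    rw [Matrix.neg_mul, Matrix.mul_assoc, ← Matrix.mul_assoc (Jm J x).transpose,
      ← Matrix.transpose_mul, Jm_sq hk hxM]
    simp
  have e2 := congrArg Matrix.trace e1
  rw [Matrix.trace_sub, Matrix.trace_one, Fintype.card_fin] at e2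
  have e3 : ∑ i, ∑ j, Pf g J i j x * Bf g h J i j x =
      -(√(gram (g x)).det * (Vm g J x * (Wm h J x - Wm g J x)).trace) := by
    simp only [Matrix.trace, Matrix.diag_apply, Matrix.mul_apply, Finset.mul_sum]
    rw [← Finset.sum_neg_distrib]
    refine Finset.sum_congr rfl fun i _ => ?_
    rw [← Finset.sum_neg_distrib]
    refine Finset.sum_congr rfl fun j _ => ?_
    simp only [Pf, Bf, Matrix.sub_apply]
    rw [Wm_anti hg hk hxM i j, hk'.Wm_anti hxM i j]
    ring
  show √(rho g x) * (((gram (g x))⁻¹ * gram (h x)).trace - n) =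
    -∑ i, ∑ j, Pf g J i j x * Bf g h J i j x
  rw [e3, e2, neg_neg, rho]

theorem p_INT : P_INT := by
  intro hD hA hP hT n g J hn hg hJ hk
  obtain ⟨c, hc, hcP⟩ := hP hD hA n hn
  have hcM : IsCompact (M n) := isCompact_closedBall 0 1
  have h0M : (0 : E n) ∈ M n := mem_closedBall_self zero_le_one
  have hPc : Continuous fun x => ∑ i, ∑ j, |Pf g J i j x| :=
    continuous_finsetSum _ fun i _ => continuous_finsetSum _ fun j _ =>
      (contDiff_Pf hg hJ i j).continuous.abs
  obtain ⟨p, hp⟩ := hcM.exists_bound_of_continuousOn hPc.continuousOn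
  have hgc : Continuous g := hg.smooth.continuous
  have hgn : Continuous fun x => ‖g x‖ := (continuous_norm (E := E n →L[ℝ] E n →L[ℝ] ℝ)).comp hgc
  obtain ⟨G, hG'⟩ := hcM.exists_bound_of_continuousOn (f := fun x => ‖g x‖) hgn.continuousOn
  obtain ⟨N, hN'⟩ := hcM.exists_bound_of_continuousOn (f := fun x => ‖J x‖)
    hJ.continuous.norm.continuousOn
  have hG : ∀ x ∈ M n, ‖g x‖ ≤ G := fun x hx => (le_abs_self _).trans (hG' x hx)
  have hN : ∀ x ∈ M n, ‖J x‖ ≤ N := fun x hx => (le_abs_self _).trans (hN' x hx)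
  have hp0 : 0 ≤ p := (norm_nonneg _).trans (hp 0 h0M)
  have hG0 : 0 ≤ G := (abs_nonneg _).trans (hG' 0 h0M)
  have hN0 : 0 ≤ N := (abs_nonneg _).trans (hN' 0 h0M)
  refine ⟨c * p * (G * (2 * N ^ 2 + 1)), by positivity, fun h δ hk' hδ hb => ?_⟩
  have h1 := hcP (Pf g J) (Bf g h J) p (δ * G * (2 * N ^ 2 + 1))
    (fun i j => (contDiff_Pf hg hJ i j).of_le (by simp))
    (fun i j => ((hk'.smM hJ i j).sub (smM_Wm hg hJ i j)).of_le (by simp))
    (fun x hx i j => by
      simp only [Pf]
      rw [Vm_anti hg hk hx i j]; ring)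
    (fun x hx i j => by
      simp only [Bf]
      rw [Wm_anti hg hk hx i j, hk'.Wm_anti hx i j]; ring)
    (fun x hx j => Pf_div hg hJ hk hx j)
    (fun x hx i j k => by
      have hxM : x ∈ M n := ball_subset_closedBall hx
      have e1 : ∀ a b, fderiv ℝ (Bf g h J a b) x = fderiv ℝ (fun y => Wm h J y a b) x -
          fderiv ℝ (fun y => Wm g J y a b) x := by
        intro a b
        unfold Bf
        rw [fderiv_fun_sub ((hk'.smM hJ).diff a b x) ((smM_Wm hg hJ).diff a b x)]
      simp only [e1, sub_apply]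
      have e2 := closed_Wm hk hxM i j k
      have e3 := hk'.closed_Wm hx i j k
      simp only [dM, Matrix.of_apply] at e2 e3
      linarith)
    (fun x hx i j => by
      have h2 := hp x hx
      rw [Real.norm_of_nonneg (Finset.sum_nonneg fun i _ => Finset.sum_nonneg fun j _ =>
        abs_nonneg _)] at h2
      refine le_trans ?_ h2
      refine le_trans ?_ (Finset.single_le_sum (f := fun i => ∑ j, |Pf g J i j x|)
        (fun i _ => Finset.sum_nonneg fun j _ => abs_nonneg _) (Finset.mem_univ i))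
      exact Finset.single_le_sum (f := fun j => |Pf g J i j x|)
        (fun j _ => abs_nonneg _) (Finset.mem_univ j))
    (fun x hx i j => by
      have hxb : x ∈ bdM n := by rwa [mem_sphere_zero_iff_norm]
      have hxM : x ∈ M n := sphere_subset_closedBall hxb
      refine hT n g h J x G N δ (hk.hk hg) hk' hx hG0 hN0 hδ (fun v => ?_) (fun v => ?_)
        (fun v hv => hb x hxb v hv) i j
      · calc g x v v ≤ ‖g x v v‖ := le_abs_self _
          _ ≤ ‖g x‖ * ‖v‖ * ‖v‖ := (g x).le_opNorm₂ v v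
          _ ≤ G * ‖v‖ * ‖v‖ := by gcongr; exact hG x hxM
          _ = G * ‖v‖ ^ 2 := by ring
      · exact ((J x).le_opNorm v).trans (mul_le_mul_of_nonneg_right (hN x hxM) (norm_nonneg v)))
  rw [TT_eq hg hk hk', abs_neg]
  refine h1.trans (le_of_eq ?_)
  ring

end Pool.Agent.W2helper52.KS
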